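import Mathlib

/-!
# Values of typical polynomials avoid a thin set

`W` is a set of `k`-tuples of positive integers with `O (X ^ s)` members up to `X`. For `A ≥ 1`, `A (d s + 1) + s < (d + 1) k`,
for all the `k`-tuples of polynomials of degree at most `d` with coefficients in `[1, H]` but `H ^ ((d + 1) k - κ)` the values at
ALL the positive integers `n ≤ H ^ A` are outside `W`.
-/

set_option autoImplicit false

namespace Pool.Agent.D0H71.TPY

open Finset

/-- the value at `n` of the polynomial with the coefficients `c 0, c 1, ..., c d` -/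
def val {d : ℕ} (c : Fin (d + 1) → ℕ) (n : ℕ) : ℕ := ∑ i, c i * n ^ (i : ℕ)

/-- the coefficient vectors with entries in `[1, H]` -/
def Box (d H : ℕ) : Finset (Fin (d + 1) → ℕ) := Fintype.piFinset fun _ => Finset.Icc 1 H

lemma val_succ {d : ℕ} (c : Fin (d + 2) → ℕ) (n : ℕ) : val c n = c 0 + n * val (fun i => c i.succ) n := by
  unfold val
  rw [Fin.sum_univ_succ, Finset.mul_sum]
  simp only [Fin.val_zero, pow_zero, mul_one, Fin.val_succ]
  congr 1
  refine Finset.sum_congr rfl fun i _ => ?_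
  ring

lemma val_le {d : ℕ} (c : Fin (d + 1) → ℕ) (n H : ℕ) (hn : 1 ≤ n) (hc : ∀ i, c i ≤ H) :
    val c n ≤ (d + 1) * H * n ^ d := by
  unfold val
  calc ∑ i, c i * n ^ (i : ℕ) ≤ ∑ _i : Fin (d + 1), H * n ^ d := by
        refine Finset.sum_le_sum fun i _ => Nat.mul_le_mul (hc i) ?_
        exact Nat.pow_le_pow_right hn (by have := i.2; omega)
    _ = (d + 1) * H * n ^ d := by
        rw [Finset.sum_const, Finset.card_univ, Fintype.card_fin, smul_eq_mul]
        ring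

lemma val_pos {d : ℕ} (c : Fin (d + 1) → ℕ) (n : ℕ) (hc : ∀ i, 1 ≤ c i) : 1 ≤ val c n := by
  unfold val
  refine le_trans ?_ (Finset.single_le_sum (f := fun i : Fin (d + 1) => c i * n ^ (i : ℕ)) (fun i _ => Nat.zero_le _)
    (Finset.mem_univ 0))
  simpa using hc 0

lemma mem_box {d H : ℕ} {c : Fin (d + 1) → ℕ} : c ∈ Box d H ↔ ∀ i, 1 ≤ c i ∧ c i ≤ H := by
  unfold Box
  simp [Fintype.mem_piFinset]

lemma fibre (d H n : ℕ) (hn : 1 ≤ n) : ∀ a : ℕ,
    ((Box d H).filter (fun c => val c n = a)).card ≤ (H / n + 1) ^ d := by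
  induction d with
  | zero =>
    intro a
    rw [pow_zero, Finset.card_le_one]
    intro c hc c' hc'
    rw [Finset.mem_filter] at hc hc'
    have h1 : c 0 = a := by simpa [val] using hc.2
    have h2 : c' 0 = a := by simpa [val] using hc'.2
    funext i
    obtain ⟨i, hi⟩ := i
    have h3 : i = 0 := by omega
    subst h3
    exact h1.trans h2.symm
  | succ d ih =>
    intro a
    have hmaps : ∀ c ∈ (Box (d + 1) H).filter (fun c => val c n = a), c 0 / n ∈ range (H / n + 1) := by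
      intro c hc
      rw [Finset.mem_filter, mem_box] at hc
      rw [Finset.mem_range]
      have := Nat.div_le_div_right (c := n) (hc.1 0).2
      omega
    have hb : ∀ q ∈ range (H / n + 1),
        (((Box (d + 1) H).filter (fun c => val c n = a)).filter (fun c => c 0 / n = q)).card ≤ (H / n + 1) ^ d := by
      intro q _
      refine le_trans ?_ (ih ((a - (n * q + a % n)) / n))
      have key : ∀ c ∈ ((Box (d + 1) H).filter (fun c => val c n = a)).filter (fun c => c 0 / n = q),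
          c 0 = n * q + a % n ∧ (fun i : Fin (d + 1) => c i.succ) ∈ Box d H ∧
            val (fun i : Fin (d + 1) => c i.succ) n = (a - (n * q + a % n)) / n := by
        intro c hc
        rw [Finset.mem_filter, Finset.mem_filter, mem_box] at hc
        obtain ⟨⟨h1, h2⟩, h3⟩ := hc
        rw [val_succ] at h2
        have h4 : c 0 % n = a % n := by
          rw [← h2, Nat.add_mul_mod_self_left]
        have h5 : c 0 = n * q + a % n := by
          have := Nat.div_add_mod (c 0) n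
          rw [h3, h4] at this
          exact this.symm
        refine ⟨h5, mem_box.2 fun i => h1 i.succ, ?_⟩
        rw [← h5, ← h2, Nat.add_sub_cancel_left, Nat.mul_div_cancel_left _ (by omega)]
      refine Finset.card_le_card_of_injOn (fun c => fun i : Fin (d + 1) => c i.succ) ?_ ?_
      · intro c hc
        have hk := key c (Finset.mem_coe.1 hc)
        exact Finset.mem_coe.2 (Finset.mem_filter.2 ⟨hk.2.1, hk.2.2⟩)
      · intro c hc c' hc' hcc
        have hk := key c (Finset.mem_coe.1 hc)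
        have hk' := key c' (Finset.mem_coe.1 hc')
        funext i
        refine Fin.cases ?_ (fun j => ?_) i
        · rw [hk.1, hk'.1]
        · exact congrFun hcc j
    have h := Finset.card_le_mul_card_image_of_maps_to hmaps _ hb
    rw [Finset.card_range] at h
    rw [pow_succ]
    exact h

/-- `k`-tuples of coefficient vectors -/
def Boxes (k d H : ℕ) : Finset (Fin k → Fin (d + 1) → ℕ) := Fintype.piFinset fun _ => Box d H

lemma mem_boxes {k d H : ℕ} {c : Fin k → Fin (d + 1) → ℕ} :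
    c ∈ Boxes k d H ↔ ∀ i j, 1 ≤ c i j ∧ c i j ≤ H := by
  unfold Boxes
  simp [Fintype.mem_piFinset, mem_box]

lemma fibres (k d H n : ℕ) (hn : 1 ≤ n) (v : Fin k → ℕ) :
    ((Boxes k d H).filter (fun c => (fun i => val (c i) n) = v)).card ≤ ((H / n + 1) ^ d) ^ k := by
  have h : (Boxes k d H).filter (fun c => (fun i => val (c i) n) = v) ⊆
      Fintype.piFinset fun i : Fin k => (Box d H).filter (fun c => val c n = v i) := by
    intro c hc
    rw [Finset.mem_filter] at hc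
    rw [Fintype.mem_piFinset]
    intro i
    rw [Finset.mem_filter]
    refine ⟨?_, congrFun hc.2 i⟩
    have := hc.1
    unfold Boxes at this
    exact (Fintype.mem_piFinset.1 this) i
  refine (Finset.card_le_card h).trans ?_
  rw [Fintype.card_piFinset]
  calc ∏ i : Fin k, ((Box d H).filter (fun c => val c n = v i)).card ≤ ∏ _i : Fin k, (H / n + 1) ^ d :=
        Finset.prod_le_prod' fun i _ => fibre d H n hn (v i)
    _ = ((H / n + 1) ^ d) ^ k := by
        rw [Finset.prod_const, Finset.card_univ, Fintype.card_fin]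

open Classical in
lemma at_n (k d H n X : ℕ) (hn : 1 ≤ n) (hX : (d + 1) * H * n ^ d ≤ X) (W : Set (Fin k → ℕ)) :
    ((Boxes k d H).filter (fun c => (fun i => val (c i) n) ∈ W)).card ≤
      ((H / n + 1) ^ d) ^ k * ((Fintype.piFinset fun _ : Fin k => Finset.Iic X).filter (fun v => v ∈ W)).card := by
  refine Finset.card_le_mul_card_image_of_maps_to (f := fun c => fun i => val (c i) n) ?_ _ ?_
  · intro c hc
    rw [Finset.mem_filter, mem_boxes] at hc
    rw [Finset.mem_filter, Fintype.mem_piFinset]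
    refine ⟨fun i => ?_, hc.2⟩
    rw [Finset.mem_Iic]
    exact (val_le (c i) n H hn fun j => (hc.1 i j).2).trans hX
  · intro v _
    refine le_trans (Finset.card_le_card ?_) (fibres k d H n hn v)
    intro c hc
    rw [Finset.mem_filter, Finset.mem_filter] at hc
    rw [Finset.mem_filter]
    exact ⟨hc.1.1, hc.2⟩

open Classical in
/-- **The engine.** -/
theorem engine (k d : ℕ) (W : Set (Fin k → ℕ)) (C s A : ℝ) (hs : 0 ≤ s) (hA : 1 ≤ A)
    (hW : ∀ X : ℕ, 1 ≤ X →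
      (((Fintype.piFinset fun _ : Fin k => Finset.Iic X).filter (fun v => v ∈ W)).card : ℝ) ≤ C * (X : ℝ) ^ s)
    (h : A * (d * s + 1) + s < (d + 1) * k) : ∃ κ : ℝ, 0 < κ ∧ ∃ H₀ : ℕ, ∀ H : ℕ, H₀ ≤ H →
      ({c : Fin k → Fin (d + 1) → ℕ | (∀ i j, 1 ≤ c i j ∧ c i j ≤ H) ∧ ∃ n : ℕ, 1 ≤ n ∧ (n : ℝ) ≤ (H : ℝ) ^ A ∧
        (fun i => val (c i) n) ∈ W}.ncard : ℝ) ≤ (H : ℝ) ^ ((d + 1) * k - κ : ℝ) := by
  obtain ⟨g, hg⟩ : ∃ g : ℝ, g = (d + 1) * k - s - A * (d * s + 1) := ⟨_, rfl⟩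
  have hg0 : 0 < g := by rw [hg]; linarith
  have hd0 : (0 : ℝ) ≤ d := by positivity
  have hds : 0 ≤ (d : ℝ) * s := by positivity
  have hAds : (d : ℝ) * s + 1 ≤ A * (d * s + 1) := by nlinarith
  obtain ⟨κ, hκ⟩ : ∃ κ : ℝ, κ = g / (4 * (d + 1)) := ⟨_, rfl⟩
  have hκ0 : 0 < κ := by rw [hκ]; positivity
  have hκ1 : 4 * (d + 1) * κ = g := by rw [hκ]; field_simp
  have hκg : 4 * κ ≤ g := by rw [← hκ1]; nlinarith
  -- the series
  obtain ⟨e, he⟩ : ∃ e : ℝ, e = g / 2 := ⟨_, rfl⟩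
  have he0 : 0 < e := by rw [he]; linarith
  have hsum : Summable fun n : ℕ => (n : ℝ) ^ (-(1 + e)) :=
    Real.summable_nat_rpow.2 (by linarith)
  obtain ⟨Z, hZ⟩ : ∃ Z : ℝ, Z = ∑' n : ℕ, (n : ℝ) ^ (-(1 + e)) := ⟨_, rfl⟩
  have hZ0 : 0 ≤ Z := by rw [hZ]; exact tsum_nonneg fun n => by positivity
  obtain ⟨D, hD⟩ : ∃ D : ℝ, D = |C| * ((d : ℝ) + 1) ^ s * (2 ^ (d * k) * Z + 1) := ⟨_, rfl⟩
  have hD0 : 0 ≤ D := by rw [hD]; positivity
  have hlim : Filter.Tendsto (fun H : ℕ => (H : ℝ) ^ κ) Filter.atTop Filter.atTop :=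
    (tendsto_rpow_atTop hκ0).comp tendsto_natCast_atTop_atTop
  obtain ⟨H₁, hH₁⟩ := (Filter.eventually_atTop.1 (hlim.eventually_ge_atTop D))
  refine ⟨κ, hκ0, max H₁ 1, fun H hH => ?_⟩
  have hH1 : 1 ≤ H := (le_max_right _ _).trans hH
  have hHr : (1 : ℝ) ≤ H := by exact_mod_cast hH1
  have hHp : (0 : ℝ) < H := by linarith
  have hDH := hH₁ H ((le_max_left _ _).trans hH)
  obtain ⟨N, hN⟩ : ∃ N : ℕ, N = ⌊(H : ℝ) ^ A⌋₊ := ⟨_, rfl⟩
  have hNle : (N : ℝ) ≤ (H : ℝ) ^ A := by rw [hN]; exact Nat.floor_le (by positivity)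
  -- the count at `n`
  have hatn : ∀ n : ℕ, 1 ≤ n → (((Boxes k d H).filter (fun c => (fun i => val (c i) n) ∈ W)).card : ℝ) ≤
      (((H / n + 1 : ℕ) : ℝ) ^ (d * k)) * (|C| * (((d : ℝ) + 1) ^ s * (H : ℝ) ^ s * (n : ℝ) ^ (d * s))) := by
    intro n hn
    have hnr : (1 : ℝ) ≤ n := by exact_mod_cast hn
    have hX1 : 1 ≤ (d + 1) * H * n ^ d := Nat.one_le_iff_ne_zero.2 (by positivity)
    have h1 := at_n k d H n ((d + 1) * H * n ^ d) hn le_rfl W
    have h2 := hW _ hX1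
    have h3 : ((((d + 1) * H * n ^ d : ℕ) : ℝ)) ^ s = ((d : ℝ) + 1) ^ s * (H : ℝ) ^ s * (n : ℝ) ^ (d * s) := by
      push_cast
      rw [Real.mul_rpow (by positivity) (by positivity), Real.mul_rpow (by positivity) (by positivity),
        ← Real.rpow_natCast (n : ℝ) d, ← Real.rpow_mul (by positivity)]
    calc (((Boxes k d H).filter (fun c => (fun i => val (c i) n) ∈ W)).card : ℝ)
        ≤ ((((H / n + 1) ^ d) ^ k * ((Fintype.piFinset fun _ : Fin k => Finset.Iic ((d + 1) * H * n ^ d)).filter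
          (fun v => v ∈ W)).card : ℕ) : ℝ) := by exact_mod_cast h1
      _ = (((H / n + 1 : ℕ) : ℝ) ^ (d * k)) * (((Fintype.piFinset fun _ : Fin k =>
          Finset.Iic ((d + 1) * H * n ^ d)).filter (fun v => v ∈ W)).card : ℝ) := by
          rw [Nat.cast_mul, Nat.cast_pow, Nat.cast_pow, pow_mul]
      _ ≤ (((H / n + 1 : ℕ) : ℝ) ^ (d * k)) * (|C| * (((d : ℝ) + 1) ^ s * (H : ℝ) ^ s * (n : ℝ) ^ (d * s))) := by
          refine mul_le_mul_of_nonneg_left (h2.trans ?_) (by positivity)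
          rw [h3]
          exact mul_le_mul_of_nonneg_right (le_abs_self C) (by positivity)
  -- the bound for `n ≤ H`
  obtain ⟨m, hm⟩ : ∃ m : ℝ, m = max 0 (1 + e - d * (k - s)) := ⟨_, rfl⟩
  have hm0 : 0 ≤ m := by rw [hm]; exact le_max_left _ _
  have hm1 : 1 + e - d * (k - s) ≤ m := by rw [hm]; exact le_max_right _ _
  have hexp : s + d * k + m ≤ (d + 1) * k - 2 * κ := by
    have hks : 1 + g ≤ (d + 1) * (k - s) := by rw [hg]; nlinarith
    rw [hm]
    rcases le_total 0 (1 + e - (d : ℝ) * (k - s)) with h0 | h0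
    · rw [max_eq_right h0, he]
      nlinarith
    · rw [max_eq_left h0]
      have h5 : 2 * κ ≤ k - s := by
        by_contra hcon
        push Not at hcon
        have : (d + 1) * (k - s) ≤ (d + 1) * (2 * κ) := mul_le_mul_of_nonneg_left hcon.le (by positivity)
        nlinarith
      linarith
  have hsmall : ∀ n : ℕ, 1 ≤ n → n ≤ H →
      (((Boxes k d H).filter (fun c => (fun i => val (c i) n) ∈ W)).card : ℝ) ≤
      |C| * ((d : ℝ) + 1) ^ s * 2 ^ (d * k) * (H : ℝ) ^ ((d + 1) * k - 2 * κ : ℝ) * (n : ℝ) ^ (-(1 + e)) := by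
    intro n hn hnH
    have hnr : (1 : ℝ) ≤ n := by exact_mod_cast hn
    have hn0 : (0 : ℝ) < n := by linarith
    have hnH' : (n : ℝ) ≤ H := by exact_mod_cast hnH
    have h1 : ((H / n + 1 : ℕ) : ℝ) ≤ 2 * (H / n) := by
      push_cast
      have h2 : ((H / n : ℕ) : ℝ) ≤ (H : ℝ) / n := Nat.cast_div_le
      have h3 : 1 ≤ (H : ℝ) / n := by rwa [le_div_iff₀ hn0, one_mul]
      linarith
    have h2 : ((H / n + 1 : ℕ) : ℝ) ^ (d * k) ≤ 2 ^ (d * k) * ((H : ℝ) ^ ((d : ℝ) * k) * (n : ℝ) ^ (-((d : ℝ) * k))) := by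
      calc ((H / n + 1 : ℕ) : ℝ) ^ (d * k) ≤ (2 * (H / n)) ^ (d * k) := pow_le_pow_left₀ (by positivity) h1 _
        _ = 2 ^ (d * k) * ((H : ℝ) ^ ((d : ℝ) * k) * (n : ℝ) ^ (-((d : ℝ) * k))) := by
            rw [mul_pow, div_pow, Real.rpow_neg hn0.le, ← Nat.cast_mul, Real.rpow_natCast, Real.rpow_natCast]
            rfl
    have h3 : (n : ℝ) ^ (-((d : ℝ) * k)) * (n : ℝ) ^ (d * s) ≤ (H : ℝ) ^ m * (n : ℝ) ^ (-(1 + e)) := by
      rw [← Real.rpow_add hn0]
      calc (n : ℝ) ^ (-((d : ℝ) * k) + d * s) ≤ (n : ℝ) ^ (m + -(1 + e)) :=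
            Real.rpow_le_rpow_of_exponent_le hnr (by linarith)
        _ = (n : ℝ) ^ m * (n : ℝ) ^ (-(1 + e)) := Real.rpow_add hn0 _ _
        _ ≤ (H : ℝ) ^ m * (n : ℝ) ^ (-(1 + e)) := mul_le_mul_of_nonneg_right
            (Real.rpow_le_rpow hn0.le hnH' hm0) (by positivity)
    refine (hatn n hn).trans ?_
    calc (((H / n + 1 : ℕ) : ℝ) ^ (d * k)) * (|C| * (((d : ℝ) + 1) ^ s * (H : ℝ) ^ s * (n : ℝ) ^ (d * s)))
        ≤ (2 ^ (d * k) * ((H : ℝ) ^ ((d : ℝ) * k) * (n : ℝ) ^ (-((d : ℝ) * k)))) *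
          (|C| * (((d : ℝ) + 1) ^ s * (H : ℝ) ^ s * (n : ℝ) ^ (d * s))) :=
          mul_le_mul_of_nonneg_right h2 (by positivity)
      _ = |C| * ((d : ℝ) + 1) ^ s * 2 ^ (d * k) * ((H : ℝ) ^ s * (H : ℝ) ^ ((d : ℝ) * k)) *
          ((n : ℝ) ^ (-((d : ℝ) * k)) * (n : ℝ) ^ (d * s)) := by ring
      _ ≤ |C| * ((d : ℝ) + 1) ^ s * 2 ^ (d * k) * ((H : ℝ) ^ s * (H : ℝ) ^ ((d : ℝ) * k)) *
          ((H : ℝ) ^ m * (n : ℝ) ^ (-(1 + e))) := mul_le_mul_of_nonneg_left h3 (by positivity)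
      _ = |C| * ((d : ℝ) + 1) ^ s * 2 ^ (d * k) * ((H : ℝ) ^ (s + d * k + m)) * (n : ℝ) ^ (-(1 + e)) := by
          rw [Real.rpow_add hHp, Real.rpow_add hHp]
          ring
      _ ≤ _ := by
          refine mul_le_mul_of_nonneg_right (mul_le_mul_of_nonneg_left
            (Real.rpow_le_rpow_of_exponent_le hHr hexp) (by positivity)) (by positivity)
  -- the bound for `n > H`
  have hlarge : ∀ n : ℕ, H < n → n ≤ N →
      (((Boxes k d H).filter (fun c => (fun i => val (c i) n) ∈ W)).card : ℝ) ≤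
      |C| * ((d : ℝ) + 1) ^ s * ((H : ℝ) ^ s * (H : ℝ) ^ (A * (d * s))) := by
    intro n hn hnN
    have hnr : (1 : ℝ) ≤ n := by
      have : 1 ≤ n := by omega
      exact_mod_cast this
    have h1 : H / n = 0 := Nat.div_eq_of_lt hn
    have h2 := hatn n (by omega)
    rw [h1] at h2
    simp only [zero_add, Nat.cast_one, one_pow, one_mul] at h2
    have h3 : (n : ℝ) ^ (d * s) ≤ (H : ℝ) ^ (A * (d * s)) := by
      rw [Real.rpow_mul hHp.le]
      exact Real.rpow_le_rpow (by linarith) (le_trans (by exact_mod_cast hnN) hNle) hds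
    refine h2.trans ?_
    calc |C| * (((d : ℝ) + 1) ^ s * (H : ℝ) ^ s * (n : ℝ) ^ (d * s)) ≤
          |C| * (((d : ℝ) + 1) ^ s * (H : ℝ) ^ s * (H : ℝ) ^ (A * (d * s))) :=
          mul_le_mul_of_nonneg_left (mul_le_mul_of_nonneg_left h3 (by positivity)) (abs_nonneg C)
      _ = _ := by ring
  -- the union
  obtain ⟨f, hf⟩ : ∃ f : ℕ → ℝ, f = fun n => (((Boxes k d H).filter (fun c => (fun i => val (c i) n) ∈ W)).card : ℝ) :=
    ⟨_, rfl⟩
  have hf0 : ∀ n, 0 ≤ f n := fun n => by rw [hf]; positivity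
  have hunion : ({c : Fin k → Fin (d + 1) → ℕ | (∀ i j, 1 ≤ c i j ∧ c i j ≤ H) ∧ ∃ n : ℕ, 1 ≤ n ∧
      (n : ℝ) ≤ (H : ℝ) ^ A ∧ (fun i => val (c i) n) ∈ W}.ncard : ℝ) ≤ ∑ n ∈ Finset.Icc 1 N, f n := by
    have hsub : {c : Fin k → Fin (d + 1) → ℕ | (∀ i j, 1 ≤ c i j ∧ c i j ≤ H) ∧ ∃ n : ℕ, 1 ≤ n ∧
      (n : ℝ) ≤ (H : ℝ) ^ A ∧ (fun i => val (c i) n) ∈ W} ⊆
      (((Finset.Icc 1 N).biUnion fun n => (Boxes k d H).filter (fun c => (fun i => val (c i) n) ∈ W) :
        Finset (Fin k → Fin (d + 1) → ℕ)) : Set (Fin k → Fin (d + 1) → ℕ)) := by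
      rintro c ⟨h1, n, h2, h3, h4⟩
      rw [Finset.mem_coe, Finset.mem_biUnion]
      refine ⟨n, Finset.mem_Icc.2 ⟨h2, ?_⟩, Finset.mem_filter.2 ⟨mem_boxes.2 h1, h4⟩⟩
      rw [hN]
      exact Nat.le_floor h3
    have h1 := Set.ncard_le_ncard hsub (Finset.finite_toSet _)
    rw [Set.ncard_coe_finset] at h1
    have h2 := h1.trans Finset.card_biUnion_le
    rw [hf]
    beta_reduce
    exact_mod_cast h2
  have hsplit : ∑ n ∈ Finset.Icc 1 N, f n ≤ ∑ n ∈ Finset.Icc 1 H, f n + ∑ n ∈ Finset.Ioc H N, f n := by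
    have h1 : Finset.Icc 1 N ⊆ Finset.Icc 1 H ∪ Finset.Ioc H N := by
      intro n hn
      rw [Finset.mem_Icc] at hn
      rw [Finset.mem_union, Finset.mem_Icc, Finset.mem_Ioc]
      omega
    refine (Finset.sum_le_sum_of_subset_of_nonneg h1 fun n _ _ => hf0 n).trans ?_
    rw [Finset.sum_union]
    rw [Finset.disjoint_left]
    intro n hn hn'
    rw [Finset.mem_Icc] at hn
    rw [Finset.mem_Ioc] at hn'
    omega
  have hs1 : ∑ n ∈ Finset.Icc 1 H, f n ≤
      |C| * ((d : ℝ) + 1) ^ s * 2 ^ (d * k) * (H : ℝ) ^ ((d + 1) * k - 2 * κ : ℝ) * Z := by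
    calc ∑ n ∈ Finset.Icc 1 H, f n ≤ ∑ n ∈ Finset.Icc 1 H,
          |C| * ((d : ℝ) + 1) ^ s * 2 ^ (d * k) * (H : ℝ) ^ ((d + 1) * k - 2 * κ : ℝ) * (n : ℝ) ^ (-(1 + e)) :=
          Finset.sum_le_sum fun n hn => by
            rw [Finset.mem_Icc] at hn
            rw [hf]
            exact hsmall n hn.1 hn.2
      _ = |C| * ((d : ℝ) + 1) ^ s * 2 ^ (d * k) * (H : ℝ) ^ ((d + 1) * k - 2 * κ : ℝ) *
          ∑ n ∈ Finset.Icc 1 H, (n : ℝ) ^ (-(1 + e)) := by rw [Finset.mul_sum]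
      _ ≤ _ := by
          refine mul_le_mul_of_nonneg_left ?_ (by positivity)
          rw [hZ]
          exact hsum.sum_le_tsum _ fun n _ => by positivity
  have hs2 : ∑ n ∈ Finset.Ioc H N, f n ≤
      |C| * ((d : ℝ) + 1) ^ s * (H : ℝ) ^ ((d + 1) * k - 2 * κ : ℝ) := by
    have h1 : ∑ n ∈ Finset.Ioc H N, f n ≤ (Finset.Ioc H N).card •
        (|C| * ((d : ℝ) + 1) ^ s * ((H : ℝ) ^ s * (H : ℝ) ^ (A * (d * s)))) := by
      refine Finset.sum_le_card_nsmul _ _ _ fun n hn => ?_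
      rw [Finset.mem_Ioc] at hn
      rw [hf]
      exact hlarge n hn.1 hn.2
    rw [nsmul_eq_mul] at h1
    have h2 : ((Finset.Ioc H N).card : ℝ) ≤ (H : ℝ) ^ A := by
      rw [Nat.card_Ioc]
      refine le_trans ?_ hNle
      exact_mod_cast Nat.sub_le _ _
    calc ∑ n ∈ Finset.Ioc H N, f n ≤ ((Finset.Ioc H N).card : ℝ) *
          (|C| * ((d : ℝ) + 1) ^ s * ((H : ℝ) ^ s * (H : ℝ) ^ (A * (d * s)))) := h1
      _ ≤ (H : ℝ) ^ A * (|C| * ((d : ℝ) + 1) ^ s * ((H : ℝ) ^ s * (H : ℝ) ^ (A * (d * s)))) :=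
          mul_le_mul_of_nonneg_right h2 (by positivity)
      _ = |C| * ((d : ℝ) + 1) ^ s * ((H : ℝ) ^ (A + s + A * (d * s))) := by
          rw [Real.rpow_add hHp, Real.rpow_add hHp]
          ring
      _ ≤ _ := by
          refine mul_le_mul_of_nonneg_left (Real.rpow_le_rpow_of_exponent_le hHr ?_) (by positivity)
          have : A + s + A * (d * s) = (d + 1) * k - g := by rw [hg]; ring
          rw [this]
          linarith
  calc ({c : Fin k → Fin (d + 1) → ℕ | (∀ i j, 1 ≤ c i j ∧ c i j ≤ H) ∧ ∃ n : ℕ, 1 ≤ n ∧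
      (n : ℝ) ≤ (H : ℝ) ^ A ∧ (fun i => val (c i) n) ∈ W}.ncard : ℝ)
      ≤ ∑ n ∈ Finset.Icc 1 H, f n + ∑ n ∈ Finset.Ioc H N, f n := hunion.trans hsplit
    _ ≤ |C| * ((d : ℝ) + 1) ^ s * 2 ^ (d * k) * (H : ℝ) ^ ((d + 1) * k - 2 * κ : ℝ) * Z +
        |C| * ((d : ℝ) + 1) ^ s * (H : ℝ) ^ ((d + 1) * k - 2 * κ : ℝ) := add_le_add hs1 hs2
    _ = D * (H : ℝ) ^ ((d + 1) * k - 2 * κ : ℝ) := by rw [hD]; ring
    _ ≤ (H : ℝ) ^ κ * (H : ℝ) ^ ((d + 1) * k - 2 * κ : ℝ) := mul_le_mul_of_nonneg_right hDH (by positivity)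
    _ = (H : ℝ) ^ ((d + 1) * k - κ : ℝ) := by
        rw [← Real.rpow_add hHp]
        congr 1
        ring

end Pool.Agent.D0H71.TPY
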